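import Pool.Agent.Q96.NU.Stm

/-! # JOB A of project MP_3cb207_an (helper96): the numerical index of a complex space is at least `1/8` -/

set_option autoImplicit false

namespace Q176.NU

open Q96.NU Metric

variable {X : Type} [NormedAddCommGroup X] [NormedSpace ℂ X]

lemma bdd (T : X →L[ℂ] X) :
    BddAbove {r : ℝ | ∃ (x : X) (f : X →L[ℂ] ℂ), IsPi x f ∧ r = ‖f (T x)‖} := by
  refine ⟨‖T‖, ?_⟩
  rintro r ⟨x, f, ⟨hx, hf, -⟩, rfl⟩
  calc ‖f (T x)‖ ≤ ‖f‖ * ‖T x‖ := f.le_opNorm _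
    _ ≤ ‖f‖ * (‖T‖ * ‖x‖) := by gcongr; exact T.le_opNorm _
    _ = ‖T‖ := by rw [hx, hf]; ring

lemma nu_nonneg (T : X →L[ℂ] X) : 0 ≤ nu T := by
  apply Real.sSup_nonneg
  rintro r ⟨x, f, -, rfl⟩
  exact norm_nonneg _

/-- the bound of `f (T u)` at a supporting functional -/
lemma at_support (T : X →L[ℂ] X) {u : X} {f : X →L[ℂ] ℂ} (hu : u ≠ 0) (hf : ‖f‖ = 1)
    (hfu : f u = (‖u‖ : ℂ)) : ‖f (T u)‖ ≤ nu T * ‖u‖ := by
  have hn : (0 : ℝ) < ‖u‖ := norm_pos_iff.mpr hu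
  have hnc : (‖u‖ : ℂ) ≠ 0 := by exact_mod_cast hn.ne'
  have hpi : IsPi (𝕜 := ℂ) (((‖u‖ : ℂ)⁻¹) • u) f := by
    refine ⟨?_, hf, ?_⟩
    · rw [norm_smul, norm_inv, Complex.norm_real, norm_norm, inv_mul_cancel₀ hn.ne']
    · rw [map_smul, hfu, smul_eq_mul, inv_mul_cancel₀ hnc]
  have h1 := le_csSup (bdd T) ⟨_, f, hpi, rfl⟩
  rw [map_smul, map_smul, norm_smul, norm_inv, Complex.norm_real, norm_norm] at h1
  have h2 : ‖u‖⁻¹ * ‖f (T u)‖ ≤ nu T := h1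
  calc ‖f (T u)‖ = ‖u‖ * (‖u‖⁻¹ * ‖f (T u)‖) := by rw [← mul_assoc, mul_inv_cancel₀ hn.ne', one_mul]
    _ ≤ ‖u‖ * nu T := by gcongr
    _ = nu T * ‖u‖ := mul_comm _ _

lemma step1 (T : X →L[ℂ] X) {w t : ℝ} (hw : nu T ≤ w) (ht : 0 ≤ t) {z : ℂ}
    (hz : ‖z‖ = 1) (x : X) :
    ‖x + ((t : ℂ) * z) • T x‖ * (1 - t * w) ≤ (1 + t ^ 2 * ‖T‖ ^ 2) * ‖x‖ := by
  set u : X := x + ((t : ℂ) * z) • T x with hu
  by_cases h0 : u = 0
  · rw [h0, norm_zero, zero_mul]; positivity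
  obtain ⟨f, hf, hfu⟩ := exists_dual_vector ℂ u (norm_ne_zero_iff.mpr h0)
  have hsup := at_support T h0 hf hfu
  have hTx : T x = T u - ((t : ℂ) * z) • T (T x) := by
    rw [hu, map_add, map_smul]; abel
  have h1 : (‖u‖ : ℂ) = f x + ((t : ℂ) * z) * f (T u) - ((t : ℂ) * z) ^ 2 * f (T (T x)) := by
    calc (‖u‖ : ℂ) = f u := hfu.symm
      _ = f x + ((t : ℂ) * z) * f (T x) := by rw [hu, map_add, map_smul, smul_eq_mul]
      _ = f x + ((t : ℂ) * z) * (f (T u) - ((t : ℂ) * z) * f (T (T x))) := by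
          conv_lhs => rw [hTx, map_sub, map_smul, smul_eq_mul]
      _ = _ := by ring
  have hfn : ∀ v : X, ‖f v‖ ≤ ‖v‖ := fun v => by
    calc ‖f v‖ ≤ ‖f‖ * ‖v‖ := f.le_opNorm v
      _ = ‖v‖ := by rw [hf, one_mul]
  have htz : ‖(t : ℂ) * z‖ = t := by rw [norm_mul, hz, mul_one, Complex.norm_real, Real.norm_of_nonneg ht]
  have h2 : ‖u‖ ≤ ‖x‖ + t * (nu T * ‖u‖) + t ^ 2 * (‖T‖ ^ 2 * ‖x‖) := by
    calc ‖u‖ = ‖(‖u‖ : ℂ)‖ := by rw [Complex.norm_real, norm_norm]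
      _ ≤ ‖f x‖ + ‖((t : ℂ) * z) * f (T u)‖ + ‖((t : ℂ) * z) ^ 2 * f (T (T x))‖ := by
          rw [h1]
          exact (norm_sub_le _ _).trans (add_le_add (norm_add_le _ _) le_rfl)
      _ ≤ _ := by
          rw [norm_mul ((t : ℂ) * z), norm_mul (((t : ℂ) * z) ^ 2), norm_pow, htz]
          refine add_le_add (add_le_add (hfn x) ?_) ?_
          · gcongr
          · gcongr
            calc ‖f (T (T x))‖ ≤ ‖T (T x)‖ := hfn _
              _ ≤ ‖T‖ * ‖T x‖ := T.le_opNorm _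
              _ ≤ ‖T‖ * (‖T‖ * ‖x‖) := by gcongr; exact T.le_opNorm _
              _ = ‖T‖ ^ 2 * ‖x‖ := by ring
  have h3 : t * (nu T * ‖u‖) ≤ t * (w * ‖u‖) := by gcongr
  nlinarith

lemma step2 (T : X →L[ℂ] X) {w t : ℝ} (hw : nu T ≤ w) (ht : 0 ≤ t) (htw : t * w < 1) {z : ℂ}
    (hz : ‖z‖ = 1) :
    ‖(1 : X →L[ℂ] X) + z • ((t : ℂ) • T)‖ ≤ (1 + t ^ 2 * ‖T‖ ^ 2) / (1 - t * w) := by
  have hpos : 0 < 1 - t * w := by linarith
  refine ContinuousLinearMap.opNorm_le_bound _ (by positivity) fun x => ?_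
  have h1 := step1 T hw ht hz x
  have h2 : ((1 : X →L[ℂ] X) + z • ((t : ℂ) • T)) x = x + ((t : ℂ) * z) • T x := by
    simp only [ContinuousLinearMap.add_apply, ContinuousLinearMap.one_apply,
      ContinuousLinearMap.smul_apply, smul_smul]
    rw [mul_comm]
  rw [h2, div_mul_eq_mul_div, le_div_iff₀ hpos]
  exact h1

lemma hasDeriv (A : X →L[ℂ] X) (n : ℕ) :
    HasDerivAt (fun z : ℂ => ((1 : X →L[ℂ] X) + z • A) ^ n) ((n : ℂ) • A) 0 := by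
  induction n with
  | zero => simpa using hasDerivAt_const (0 : ℂ) (1 : X →L[ℂ] X)
  | succ n ih =>
    have h1 : HasDerivAt (fun z : ℂ => (1 : X →L[ℂ] X) + z • A) A 0 := by
      have := ((hasDerivAt_id (0 : ℂ)).smul_const A).const_add (1 : X →L[ℂ] X)
      simpa using this
    have h2 := ih.mul h1
    have h3 : (fun z : ℂ => ((1 : X →L[ℂ] X) + z • A) ^ (n + 1)) =
        (fun z : ℂ => ((1 : X →L[ℂ] X) + z • A) ^ n) * fun z : ℂ => (1 : X →L[ℂ] X) + z • A := by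
      funext z; simp only [Pi.mul_apply, pow_succ]
    rw [h3]
    refine h2.congr_deriv ?_
    simp only [zero_smul, add_zero, one_pow, mul_one, one_mul]
    push_cast
    rw [add_smul, one_smul]

lemma diff (A : X →L[ℂ] X) (n : ℕ) :
    Differentiable ℂ (fun z : ℂ => ((1 : X →L[ℂ] X) + z • A) ^ n) := by
  induction n with
  | zero => simp
  | succ n ih =>
    have h1 : Differentiable ℂ (fun z : ℂ => (1 : X →L[ℂ] X) + z • A) :=
      (differentiable_id.smul_const A).const_add _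
    have h3 : (fun z : ℂ => ((1 : X →L[ℂ] X) + z • A) ^ (n + 1)) =
        (fun z : ℂ => ((1 : X →L[ℂ] X) + z • A) ^ n * ((1 : X →L[ℂ] X) + z • A)) := by
      funext z; simp only [pow_succ]
    rw [h3]
    exact ih.mul h1

lemma exp_half_le : Real.exp (1 / 2) ≤ 2 := by
  have h0 := Real.exp_pos (1 / 2)
  have h1 : Real.exp (1 / 2) * Real.exp (1 / 2) = Real.exp 1 := by
    rw [← Real.exp_add]; norm_num
  have h2 := Real.exp_one_lt_d9
  nlinarith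

lemma pow_bound {b a c : ℝ} {n : ℕ} (hc : 0 ≤ c) (ha : a ≤ (1 + c) / (1 - b)) (ha0 : 0 ≤ a)
    (hb : (n : ℝ) * b = 1 / 2) (hb1 : b < 1) (hcn : (n : ℝ) * c ≤ 1 / 2) :
    a ^ n ≤ 4 := by
  have h2 : a ^ n ≤ ((1 + c) / (1 - b)) ^ n := pow_le_pow_left₀ ha0 ha n
  refine h2.trans ?_
  rw [div_pow]
  have hden : (1 / 2 : ℝ) ≤ (1 - b) ^ n := by
    have h3 := one_add_mul_le_pow (a := -b) (by linarith) n
    have h4 : 1 + (n : ℝ) * -b = 1 / 2 := by linarith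
    have h5 : (1 + -b) = 1 - b := by ring
    rwa [h4, h5] at h3
  have hnum : (1 + c) ^ n ≤ 2 := by
    have h3 : 1 + c ≤ Real.exp c := by
      have := Real.add_one_le_exp c; linarith
    have h4 : (1 + c) ^ n ≤ Real.exp (n * c) := by
      rw [Real.exp_nat_mul]
      exact pow_le_pow_left₀ (by linarith) h3 n
    exact h4.trans ((Real.exp_le_exp.mpr hcn).trans exp_half_le)
  rw [div_le_iff₀ (by linarith)]
  linarith

lemma key1 (T : X →L[ℂ] X) {w t : ℝ} (n : ℕ) (hw : nu T ≤ w) (ht0 : 0 ≤ t) (hn : 0 < n)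
    (htw1 : t * w < 1) (hb : (n : ℝ) * (t * w) = 1 / 2)
    (hc : (n : ℝ) * (t ^ 2 * ‖T‖ ^ 2) ≤ 1 / 2) : (n : ℝ) * (t * ‖T‖) ≤ 4 := by
  have hbound : ∀ z ∈ sphere (0 : ℂ) 1, ‖((1 : X →L[ℂ] X) + z • ((t : ℂ) • T)) ^ n‖ ≤ 4 := by
    intro z hz
    have hz1 : ‖z‖ = 1 := by simpa using hz
    have h1 := step2 T hw ht0 htw1 hz1
    exact (norm_pow_le' _ hn).trans (pow_bound (by positivity) h1 (norm_nonneg _) hb htw1 hc)
  have hdc : DiffContOnCl ℂ (fun z : ℂ => ((1 : X →L[ℂ] X) + z • ((t : ℂ) • T)) ^ n) (ball 0 1) :=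
    (diff _ n).diffContOnCl
  have hcau := Complex.norm_deriv_le_of_forall_mem_sphere_norm_le one_pos hdc hbound
  have hd := (hasDeriv ((t : ℂ) • T) n).deriv
  have hnorm : ‖(n : ℂ) • ((t : ℂ) • T)‖ = (n : ℝ) * (t * ‖T‖) := by
    rw [norm_smul, norm_smul, Complex.norm_real, Complex.norm_natCast, Real.norm_of_nonneg ht0]
  calc (n : ℝ) * (t * ‖T‖) = ‖(n : ℂ) • ((t : ℂ) • T)‖ := hnorm.symm
    _ = ‖deriv (fun z : ℂ => ((1 : X →L[ℂ] X) + z • ((t : ℂ) • T)) ^ n) 0‖ := by rw [hd]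
    _ ≤ 4 / 1 := hcau
    _ = 4 := by norm_num

lemma key (T : X →L[ℂ] X) {w : ℝ} (hw : nu T ≤ w) (hw0 : 0 < w) : ‖T‖ ≤ 8 * w := by
  have hM : 0 ≤ ‖T‖ ^ 2 / (4 * w ^ 2) := by positivity
  obtain ⟨n, hn⟩ := exists_nat_gt (2 * (‖T‖ ^ 2 / (4 * w ^ 2)) + 1)
  have hn1 : (1 : ℝ) < n := by linarith
  have hn0 : (0 : ℝ) < n := by linarith
  have hnn : 0 < n := by exact_mod_cast hn0
  have hb : (n : ℝ) * (1 / (2 * w * n) * w) = 1 / 2 := by field_simp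
  have h := key1 T (t := 1 / (2 * w * n)) n hw (by positivity) hnn (by nlinarith) hb (by
    have h6 : (n : ℝ) * ((1 / (2 * w * n)) ^ 2 * ‖T‖ ^ 2) = (‖T‖ ^ 2 / (4 * w ^ 2)) / n := by
      field_simp; ring
    rw [h6, div_le_iff₀ hn0]; linarith)
  have h9 : (n : ℝ) * (1 / (2 * w * n) * ‖T‖) = ‖T‖ / (2 * w) := by field_simp
  rw [h9, div_le_iff₀ (by positivity)] at h
  linarith

theorem stmA : Q96.NU.StmA := by
  intro X _ _ T
  refine le_of_forall_pos_le_add fun ε hε => ?_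
  have h := key T (w := nu T + ε / 8) (by linarith) (by have := nu_nonneg T; linarith)
  linarith

end Q176.NU
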