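import Pool.Agent.Q96.NU.Stm

/-! # JOB C of project MP_3cb207_an (helper96): convexity and second differences of `fr r` -/

set_option autoImplicit false

namespace Q176.NU

open Q96.NU Set

lemma cs4 (a b c d x y z w : ℝ) :
    (a * x + b * y + c * z + d * w) ^ 2 ≤
      (a ^ 2 + b ^ 2 + c ^ 2 + d ^ 2) * (x ^ 2 + y ^ 2 + z ^ 2 + w ^ 2) := by
  nlinarith [sq_nonneg (a * y - b * x), sq_nonneg (a * z - c * x), sq_nonneg (a * w - d * x),
    sq_nonneg (b * z - c * y), sq_nonneg (b * w - d * y), sq_nonneg (c * w - d * z)]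

section real

variable (r s0 S s2 q0 B q2 : ℝ)

/-- quadratic polynomial -/
def qd (a b c t : ℝ) : ℝ := a + 2 * b * t + c * t ^ 2

lemma qd_deriv (a b c t : ℝ) : HasDerivAt (qd a b c) (2 * b + 2 * c * t) t := by
  have h1 : HasDerivAt (fun t : ℝ => a + 2 * b * t + c * t ^ 2)
      (2 * b * 1 + c * (2 * t ^ (2 - 1) * 1)) t :=
    (((hasDerivAt_id t).const_mul (2 * b)).const_add a).add (((hasDerivAt_id t).pow 2).const_mul c)
  refine h1.congr_deriv ?_
  ring

/-- the function along a line -/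
noncomputable def F (t : ℝ) : ℝ :=
  qd s0 S s2 t * (1 + r ^ 2 / 100 * Real.cos (qd q0 B q2 t / (r * qd s0 S s2 t)))

/-- its derivative -/
noncomputable def F1 (t : ℝ) : ℝ :=
  (2 * S + 2 * s2 * t) + 1 / 100 *
    (r ^ 2 * (2 * S + 2 * s2 * t) * Real.cos (qd q0 B q2 t / (r * qd s0 S s2 t)) -
      r * ((2 * B + 2 * q2 * t) - qd q0 B q2 t * (2 * S + 2 * s2 * t) / qd s0 S s2 t) *
        Real.sin (qd q0 B q2 t / (r * qd s0 S s2 t)))

/-- its second derivative -/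
noncomputable def F2 (t : ℝ) : ℝ :=
  2 * s2 + 1 / 100 *
    (r ^ 2 * (2 * s2) * Real.cos (qd q0 B q2 t / (r * qd s0 S s2 t)) -
      r * (2 * q2 - qd q0 B q2 t * (2 * s2) / qd s0 S s2 t) *
        Real.sin (qd q0 B q2 t / (r * qd s0 S s2 t)) -
      ((2 * B + 2 * q2 * t) - qd q0 B q2 t * (2 * S + 2 * s2 * t) / qd s0 S s2 t) ^ 2 /
        qd s0 S s2 t * Real.cos (qd q0 B q2 t / (r * qd s0 S s2 t)))

variable {r s0 S s2 q0 B q2}

lemma A_deriv (hr : r ≠ 0) {t : ℝ} (hs : qd s0 S s2 t ≠ 0) :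
    HasDerivAt (fun t => qd q0 B q2 t / (r * qd s0 S s2 t))
      (((2 * B + 2 * q2 * t) - qd q0 B q2 t * (2 * S + 2 * s2 * t) / qd s0 S s2 t) /
        (r * qd s0 S s2 t)) t := by
  have h1 := (qd_deriv q0 B q2 t).div ((qd_deriv s0 S s2 t).const_mul r) (mul_ne_zero hr hs)
  refine h1.congr_deriv ?_
  generalize qd s0 S s2 t = s at *
  generalize qd q0 B q2 t = q at *
  field_simp

lemma F_deriv (hr : r ≠ 0) {t : ℝ} (hs : qd s0 S s2 t ≠ 0) :
    HasDerivAt (F r s0 S s2 q0 B q2) (F1 r s0 S s2 q0 B q2 t) t := by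
  have hA := A_deriv (q0 := q0) (B := B) (q2 := q2) hr hs
  have h1 := (qd_deriv s0 S s2 t).mul ((hA.cos.const_mul (r ^ 2 / 100)).const_add 1)
  refine h1.congr_deriv ?_
  unfold F1
  generalize Real.cos (qd q0 B q2 t / (r * qd s0 S s2 t)) = c
  generalize Real.sin (qd q0 B q2 t / (r * qd s0 S s2 t)) = sn
  generalize qd s0 S s2 t = s at *
  generalize qd q0 B q2 t = q at *
  field_simp
  ring

lemma F1_deriv (hr : r ≠ 0) {t : ℝ} (hs : qd s0 S s2 t ≠ 0) :
    HasDerivAt (F1 r s0 S s2 q0 B q2) (F2 r s0 S s2 q0 B q2 t) t := by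
  have hA := A_deriv (q0 := q0) (B := B) (q2 := q2) hr hs
  have hl : ∀ b c : ℝ, HasDerivAt (fun t : ℝ => 2 * b + 2 * c * t) (2 * c) t := by
    intro b c
    have := ((hasDerivAt_id t).const_mul (2 * c)).const_add (2 * b)
    simpa using this
  have hq := qd_deriv q0 B q2 t
  have hsd := qd_deriv s0 S s2 t
  have h1 := (hl S s2).add
    ((((((hl S s2).const_mul (r ^ 2)).mul hA.cos).sub
      ((((hl B q2).sub ((hq.mul (hl S s2)).div hsd hs)).const_mul r).mul hA.sin))).const_mul (1 / 100))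
  have h2 : F1 r s0 S s2 q0 B q2 = fun t => (2 * S + 2 * s2 * t) + 1 / 100 *
    (r ^ 2 * (2 * S + 2 * s2 * t) * Real.cos (qd q0 B q2 t / (r * qd s0 S s2 t)) -
      r * ((2 * B + 2 * q2 * t) - qd q0 B q2 t * (2 * S + 2 * s2 * t) / qd s0 S s2 t) *
        Real.sin (qd q0 B q2 t / (r * qd s0 S s2 t))) := rfl
  rw [h2]
  refine HasDerivAt.congr_deriv h1 ?_
  unfold F2
  simp only [Pi.mul_apply, Pi.sub_apply, Pi.div_apply]
  generalize Real.cos (qd q0 B q2 t / (r * qd s0 S s2 t)) = c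
  generalize Real.sin (qd q0 B q2 t / (r * qd s0 S s2 t)) = sn
  generalize qd s0 S s2 t = s at *
  generalize qd q0 B q2 t = q at *
  field_simp
  ring

lemma F2_bound (hr0 : 0 < r) (hr1 : r ≤ 1) {t : ℝ} (hs : 0 < qd s0 S s2 t) (hs2 : 0 ≤ s2)
    (hq : |qd q0 B q2 t| ≤ qd s0 S s2 t) (hq2 : |q2| ≤ s2)
    (hS : (S + s2 * t) ^ 2 ≤ qd s0 S s2 t * s2) (hB : (B + q2 * t) ^ 2 ≤ qd s0 S s2 t * s2) :
    |F2 r s0 S s2 q0 B q2 t - 2 * s2| ≤ 22 / 100 * s2 := by
  unfold F2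
  have hc := Real.abs_cos_le_one (qd q0 B q2 t / (r * qd s0 S s2 t))
  have hsn := Real.abs_sin_le_one (qd q0 B q2 t / (r * qd s0 S s2 t))
  generalize Real.cos (qd q0 B q2 t / (r * qd s0 S s2 t)) = c at *
  generalize Real.sin (qd q0 B q2 t / (r * qd s0 S s2 t)) = sn at *
  generalize qd s0 S s2 t = s at *
  generalize qd q0 B q2 t = q at *
  have hqs : |q / s| ≤ 1 := by
    rw [abs_div, abs_of_pos hs, div_le_one hs]; exact hq
  have e1 : |r ^ 2 * (2 * s2) * c| ≤ 2 * s2 := by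
    rw [abs_mul, abs_of_nonneg (by positivity : 0 ≤ r ^ 2 * (2 * s2))]
    have : r ^ 2 ≤ 1 := by nlinarith
    calc r ^ 2 * (2 * s2) * |c| ≤ 1 * (2 * s2) * 1 := by gcongr
      _ = 2 * s2 := by ring
  have e2 : |r * (2 * q2 - q * (2 * s2) / s) * sn| ≤ 4 * s2 := by
    have h1 : |2 * q2 - q * (2 * s2) / s| ≤ 4 * s2 := by
      have h2 : q * (2 * s2) / s = (q / s) * (2 * s2) := by ring
      rw [h2]
      calc |2 * q2 - q / s * (2 * s2)| ≤ |2 * q2| + |q / s * (2 * s2)| := abs_sub _ _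
        _ = 2 * |q2| + |q / s| * (2 * s2) := by
            rw [abs_mul, abs_mul, abs_of_pos (by norm_num : (0 : ℝ) < 2),
              abs_of_nonneg (by positivity : 0 ≤ 2 * s2)]
        _ ≤ 2 * s2 + 1 * (2 * s2) := by gcongr
        _ = 4 * s2 := by ring
    rw [abs_mul, abs_mul, abs_of_pos hr0]
    calc r * |2 * q2 - q * (2 * s2) / s| * |sn| ≤ 1 * (4 * s2) * 1 := by gcongr
      _ = 4 * s2 := by ring
  have e3 : |((2 * B + 2 * q2 * t) - q * (2 * S + 2 * s2 * t) / s) ^ 2 / s * c| ≤ 16 * s2 := by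
    have h2 : q * (2 * S + 2 * s2 * t) / s = (q / s) * (2 * (S + s2 * t)) := by ring
    have h3 : (2 * B + 2 * q2 * t) = 2 * (B + q2 * t) := by ring
    rw [h2, h3]
    have h4 : (2 * (B + q2 * t) - (q / s) * (2 * (S + s2 * t))) ^ 2 ≤ 16 * (s * s2) := by
      have h5 : (q / s) ^ 2 ≤ 1 := by
        have := sq_abs (q / s); nlinarith [abs_nonneg (q / s)]
      have h6 : ((q / s) * (S + s2 * t)) ^ 2 ≤ s * s2 := by
        rw [mul_pow]
        calc (q / s) ^ 2 * (S + s2 * t) ^ 2 ≤ 1 * (S + s2 * t) ^ 2 := by gcongr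
          _ ≤ s * s2 := by rw [one_mul]; exact hS
      nlinarith [sq_nonneg ((B + q2 * t) + (q / s) * (S + s2 * t))]
    rw [abs_mul, abs_div, abs_of_pos hs, abs_of_nonneg (sq_nonneg _)]
    calc (2 * (B + q2 * t) - q / s * (2 * (S + s2 * t))) ^ 2 / s * |c|
        ≤ (16 * (s * s2)) / s * 1 := by gcongr
      _ = 16 * s2 := by field_simp
  have h7 : ∀ a b c : ℝ, |2 * s2 + 1 / 100 * (a - b - c) - 2 * s2| ≤ 1 / 100 * (|a| + |b| + |c|) := by
    intro a b c
    have : 2 * s2 + 1 / 100 * (a - b - c) - 2 * s2 = 1 / 100 * (a - b - c) := by ring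
    rw [this, abs_mul, abs_of_pos (by norm_num : (0 : ℝ) < 1 / 100)]
    have := abs_sub (a - b) c
    have := abs_sub a b
    linarith
  refine (h7 _ _ _).trans ?_
  linarith

lemma real_conv (hr0 : 0 < r) (hr1 : r ≤ 1) (hs : ∀ t, 0 < qd s0 S s2 t) (hs2 : 0 ≤ s2)
    (hq : ∀ t, |qd q0 B q2 t| ≤ qd s0 S s2 t) (hq2 : |q2| ≤ s2)
    (hS : ∀ t, (S + s2 * t) ^ 2 ≤ qd s0 S s2 t * s2)
    (hB : ∀ t, (B + q2 * t) ^ 2 ≤ qd s0 S s2 t * s2) :
    ConvexOn ℝ univ (fun t => F r s0 S s2 q0 B q2 t - 89 / 100 * s2 * t ^ 2) ∧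
    ConvexOn ℝ univ (fun t => 111 / 100 * s2 * t ^ 2 - F r s0 S s2 q0 B q2 t) := by
  have hF : ∀ t, HasDerivAt (F r s0 S s2 q0 B q2) (F1 r s0 S s2 q0 B q2 t) t := fun t =>
    F_deriv hr0.ne' (hs t).ne'
  have hF1 : ∀ t, HasDerivAt (F1 r s0 S s2 q0 B q2) (F2 r s0 S s2 q0 B q2 t) t := fun t =>
    F1_deriv hr0.ne' (hs t).ne'
  have hp : ∀ k t : ℝ, HasDerivAt (fun t : ℝ => k * t ^ 2) (2 * k * t) t := by
    intro k t
    have := ((hasDerivAt_id t).pow 2).const_mul k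
    refine HasDerivAt.congr_deriv this ?_
    simp; ring
  have hl : ∀ k t : ℝ, HasDerivAt (fun t : ℝ => 2 * k * t) (2 * k) t := by
    intro k t
    simpa using (hasDerivAt_id t).const_mul (2 * k)
  have hb : ∀ t, |F2 r s0 S s2 q0 B q2 t - 2 * s2| ≤ 22 / 100 * s2 := fun t =>
    F2_bound hr0 hr1 (hs t) hs2 (hq t) hq2 (hS t) (hB t)
  constructor
  · have d1 : ∀ t, HasDerivAt (fun t => F r s0 S s2 q0 B q2 t - 89 / 100 * s2 * t ^ 2)
        (F1 r s0 S s2 q0 B q2 t - 2 * (89 / 100 * s2) * t) t := fun t => (hF t).sub (hp _ t)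
    have d2 : ∀ t, HasDerivAt (fun t => F1 r s0 S s2 q0 B q2 t - 2 * (89 / 100 * s2) * t)
        (F2 r s0 S s2 q0 B q2 t - 2 * (89 / 100 * s2)) t := fun t => (hF1 t).sub (hl _ t)
    refine convexOn_of_hasDerivWithinAt2_nonneg convex_univ
      (fun t _ => (d1 t).continuousAt.continuousWithinAt)
      (fun t _ => (d1 t).hasDerivWithinAt) (fun t _ => (d2 t).hasDerivWithinAt) fun t _ => ?_
    have := (abs_le.mp (hb t)).1
    linarith
  · have d1 : ∀ t, HasDerivAt (fun t => 111 / 100 * s2 * t ^ 2 - F r s0 S s2 q0 B q2 t)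
        (2 * (111 / 100 * s2) * t - F1 r s0 S s2 q0 B q2 t) t := fun t => (hp _ t).sub (hF t)
    have d2 : ∀ t, HasDerivAt (fun t => 2 * (111 / 100 * s2) * t - F1 r s0 S s2 q0 B q2 t)
        (2 * (111 / 100 * s2) - F2 r s0 S s2 q0 B q2 t) t := fun t => (hl _ t).sub (hF1 t)
    refine convexOn_of_hasDerivWithinAt2_nonneg convex_univ
      (fun t _ => (d1 t).continuousAt.continuousWithinAt)
      (fun t _ => (d1 t).hasDerivWithinAt) (fun t _ => (d2 t).hasDerivWithinAt) fun t _ => ?_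
    have := (abs_le.mp (hb t)).2
    linarith

end real

/-- the square of the Euclidean norm -/
noncomputable def N (z : ℂ × ℂ) : ℝ := ‖z.1‖ ^ 2 + ‖z.2‖ ^ 2

lemma N_eq (z : ℂ × ℂ) : N z = z.1.re ^ 2 + z.1.im ^ 2 + z.2.re ^ 2 + z.2.im ^ 2 := by
  unfold N
  rw [Complex.sq_norm, Complex.sq_norm, Complex.normSq_apply, Complex.normSq_apply]; ring

/-- the second quadratic form -/
noncomputable def Q (z : ℂ × ℂ) : ℝ := 2 * ((starRingEnd ℂ) z.1 * z.2).re

lemma Q_eq (z : ℂ × ℂ) : Q z = 2 * (z.1.re * z.2.re + z.1.im * z.2.im) := by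
  unfold Q
  simp [Complex.mul_re]

lemma fr_eq (r : ℝ) (z : ℂ × ℂ) : fr r z = N z * (1 + r ^ 2 / 100 * Real.cos (Q z / (r * N z))) := rfl

lemma N_nonneg (z : ℂ × ℂ) : 0 ≤ N z := by unfold N; positivity

lemma Q_le (z : ℂ × ℂ) : |Q z| ≤ N z := by
  rw [Q_eq, N_eq, abs_le]
  constructor <;> nlinarith [sq_nonneg (z.1.re - z.2.re), sq_nonneg (z.1.im - z.2.im),
    sq_nonneg (z.1.re + z.2.re), sq_nonneg (z.1.im + z.2.im)]

lemma fr_bounds {r : ℝ} (hr0 : 0 < r) (hr1 : r ≤ 1) (z : ℂ × ℂ) :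
    99 / 100 * N z ≤ fr r z ∧ fr r z ≤ 101 / 100 * N z := by
  rw [fr_eq]
  have h1 := Real.neg_one_le_cos (Q z / (r * N z))
  have h2 := Real.cos_le_one (Q z / (r * N z))
  have h3 := N_nonneg z
  have h4 : r ^ 2 ≤ 1 := by nlinarith
  have h5 : -(1 / 100) ≤ r ^ 2 / 100 * Real.cos (Q z / (r * N z)) := by nlinarith [sq_nonneg r]
  have h6 : r ^ 2 / 100 * Real.cos (Q z / (r * N z)) ≤ 1 / 100 := by nlinarith [sq_nonneg r]
  constructor <;> nlinarith

lemma fr_smul {r : ℝ} (a : ℝ) (z : ℂ × ℂ) : fr r (a • z) = a ^ 2 * fr r z := by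
  have hN : N (a • z) = a ^ 2 * N z := by
    rw [N_eq, N_eq]; simp; ring
  have hQ : Q (a • z) = a ^ 2 * Q z := by
    rw [Q_eq, Q_eq]; simp; ring
  rw [fr_eq, fr_eq, hN, hQ]
  by_cases ha : a = 0
  · subst ha; simp
  · have : a ^ 2 * Q z / (r * (a ^ 2 * N z)) = Q z / (r * N z) := by
      rw [show r * (a ^ 2 * N z) = a ^ 2 * (r * N z) by ring]
      exact mul_div_mul_left _ _ (pow_ne_zero 2 ha)
    rw [this]; ring

/-- the polar forms -/
def PS (x y : ℂ × ℂ) : ℝ := x.1.re * y.1.re + x.1.im * y.1.im + x.2.re * y.2.re + x.2.im * y.2.im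

/-- the polar form of `Q` -/
def PB (x y : ℂ × ℂ) : ℝ := x.1.re * y.2.re + x.1.im * y.2.im + x.2.re * y.1.re + x.2.im * y.1.im

lemma N_line (x y : ℂ × ℂ) (t : ℝ) : N (x + t • y) = qd (N x) (PS x y) (N y) t := by
  rw [N_eq, N_eq, N_eq]; unfold qd PS; simp; ring

lemma Q_line (x y : ℂ × ℂ) (t : ℝ) : Q (x + t • y) = qd (Q x) (PB x y) (Q y) t := by
  rw [Q_eq, Q_eq, Q_eq]; unfold qd PB; simp; ring

lemma line {r : ℝ} (hr0 : 0 < r) (hr1 : r ≤ 1) (x y : ℂ × ℂ) :
    ConvexOn ℝ univ (fun t : ℝ => fr r (x + t • y) - 89 / 100 * N y * t ^ 2) ∧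
    ConvexOn ℝ univ (fun t : ℝ => 111 / 100 * N y * t ^ 2 - fr r (x + t • y)) := by
  by_cases h : ∃ t0 : ℝ, N (x + t0 • y) = 0
  · obtain ⟨t0, ht0⟩ := h
    have hz : x + t0 • y = 0 := by
      unfold N at ht0
      have h1 : ‖(x + t0 • y).1‖ = 0 := by
        have := sq_nonneg ‖(x + t0 • y).1‖; have := sq_nonneg ‖(x + t0 • y).2‖
        exact pow_eq_zero_iff (two_ne_zero) |>.mp (by linarith)
      have h2 : ‖(x + t0 • y).2‖ = 0 := by
        have := sq_nonneg ‖(x + t0 • y).1‖; have := sq_nonneg ‖(x + t0 • y).2‖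
        exact pow_eq_zero_iff (two_ne_zero) |>.mp (by linarith)
      exact Prod.ext (norm_eq_zero.mp h1) (norm_eq_zero.mp h2)
    have hfr : ∀ t : ℝ, fr r (x + t • y) = (t - t0) ^ 2 * fr r y := by
      intro t
      have : x + t • y = (t - t0) • y := by
        have h3 : x = -(t0 • y) := eq_neg_of_add_eq_zero_left hz
        rw [h3, sub_smul]; abel
      rw [this, fr_smul]
    have hb := fr_bounds hr0 hr1 y
    have hN := N_nonneg y
    have hquad : ∀ a b c : ℝ, 0 ≤ a → ConvexOn ℝ univ (fun t : ℝ => a * t ^ 2 + b * t + c) := by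
      intro a b c ha
      refine ⟨convex_univ, fun u _ v _ p q hp hq hpq => ?_⟩
      simp only [smul_eq_mul]
      have hq' : q = 1 - p := by linarith
      subst hq'
      nlinarith [mul_nonneg (mul_nonneg ha (mul_nonneg hp hq)) (sq_nonneg (u - v))]
    constructor
    · have := hquad (fr r y - 89 / 100 * N y) (-2 * t0 * fr r y) (t0 ^ 2 * fr r y) (by linarith)
      refine this.congr fun t _ => ?_
      simp only [hfr]; ring
    · have := hquad (111 / 100 * N y - fr r y) (2 * t0 * fr r y) (-t0 ^ 2 * fr r y) (by linarith)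
      refine this.congr fun t _ => ?_
      simp only [hfr]; ring
  · push Not at h
    have hpos : ∀ t, 0 < qd (N x) (PS x y) (N y) t := by
      intro t
      rw [← N_line]
      exact lt_of_le_of_ne (N_nonneg _) (h t).symm
    have hfr : ∀ t : ℝ, fr r (x + t • y) = F r (N x) (PS x y) (N y) (Q x) (PB x y) (Q y) t := by
      intro t
      rw [fr_eq, N_line, Q_line]; rfl
    have key := real_conv (r := r) (q0 := Q x) (B := PB x y) (q2 := Q y) hr0 hr1 hpos (N_nonneg y)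
      (fun t => by rw [← N_line, ← Q_line]; exact Q_le _) (Q_le y)
      (fun t => by
        rw [← N_line, N_eq, N_eq]
        have := cs4 (x + t • y).1.re (x + t • y).1.im (x + t • y).2.re (x + t • y).2.im
          y.1.re y.1.im y.2.re y.2.im
        refine le_trans (le_of_eq ?_) this
        unfold PS; simp; ring)
      (fun t => by
        rw [← N_line, N_eq (x + t • y), N_eq y]
        have := cs4 (x + t • y).1.re (x + t • y).1.im (x + t • y).2.re (x + t • y).2.im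
          y.2.re y.2.im y.1.re y.1.im
        refine le_trans (le_of_eq ?_) (this.trans (le_of_eq ?_))
        · rw [Q_eq]; unfold PB; simp; ring
        · ring)
    refine ⟨key.1.congr fun t _ => ?_, key.2.congr fun t _ => ?_⟩
    · simp only [hfr]
    · simp only [hfr]

theorem stmC : Q96.NU.StmC := by
  intro r hr0 hr1
  refine ⟨⟨convex_univ, fun x _ y _ a b ha hb hab => ?_⟩, fun x y => ⟨?_, ?_⟩⟩
  · have h1 := (line hr0 hr1 x (y - x)).1
    have h2 := h1.2 (mem_univ 0) (mem_univ 1) ha hb hab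
    simp only [smul_eq_mul, mul_zero, mul_one, zero_add, zero_smul, add_zero, one_smul] at h2
    have h3 : x + b • (y - x) = a • x + b • y := by
      have : a = 1 - b := by linarith
      rw [this, smul_sub, sub_smul, one_smul]; abel
    have h4 : x + (y - x) = y := by abel
    rw [h3, h4] at h2
    have hN := N_nonneg (y - x)
    simp only [smul_eq_mul]
    have hb1 : b ≤ 1 := by linarith
    nlinarith [mul_nonneg hN (mul_nonneg hb (by linarith : 0 ≤ 1 - b))]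
  · have h1 := (line hr0 hr1 x y).1
    have h2 := h1.2 (mem_univ 1) (mem_univ (-1)) (by norm_num : (0 : ℝ) ≤ 1 / 2)
      (by norm_num : (0 : ℝ) ≤ 1 / 2) (by norm_num)
    simp only [smul_eq_mul] at h2
    have h3 : x + (1 / 2 * (1 : ℝ) + 1 / 2 * (-1)) • y = x := by norm_num
    have h4 : x + (1 : ℝ) • y = x + y := by rw [one_smul]
    have h5 : x + (-1 : ℝ) • y = x - y := by rw [neg_smul, one_smul, sub_eq_add_neg]
    rw [h3, h4, h5] at h2
    change 89 / 100 * N y ≤ _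
    linarith
  · have h1 := (line hr0 hr1 x y).2
    have h2 := h1.2 (mem_univ 1) (mem_univ (-1)) (by norm_num : (0 : ℝ) ≤ 1 / 2)
      (by norm_num : (0 : ℝ) ≤ 1 / 2) (by norm_num)
    simp only [smul_eq_mul] at h2
    have h3 : x + (1 / 2 * (1 : ℝ) + 1 / 2 * (-1)) • y = x := by norm_num
    have h4 : x + (1 : ℝ) • y = x + y := by rw [one_smul]
    have h5 : x + (-1 : ℝ) • y = x - y := by rw [neg_smul, one_smul, sub_eq_add_neg]
    rw [h3, h4, h5] at h2
    change _ ≤ 111 / 100 * N y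
    linarith

end Q176.NU
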